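import Mathlib

/-!
The Liouville function on the integers: `lm n = (-1)^Ω(|n|)`.
-/

set_option autoImplicit false

namespace Pool.Agent.Lib.MP_648c71_nt.Refl

open Finset

/-- `(-1)^Ω(|n|)` -/
def lm (n : ℤ) : ℤ := (-1) ^ ArithmeticFunction.cardFactors n.natAbs

theorem lm_pm (n : ℤ) : lm n = 1 ∨ lm n = -1 := neg_one_pow_eq_or ℤ _

theorem lm_mul {m n : ℤ} (hm : m ≠ 0) (hn : n ≠ 0) : lm (m * n) = lm m * lm n := by
  unfold lm
  rw [Int.natAbs_mul, ArithmeticFunction.cardFactors_mul (by simpa using hm) (by simpa using hn), pow_add]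

theorem lm_neg (n : ℤ) : lm (-n) = lm n := by
  unfold lm
  rw [Int.natAbs_neg]

theorem lm_sq (n : ℤ) : lm n * lm n = 1 := by
  rcases lm_pm n with h | h <;> rw [h] <;> norm_num

theorem lm_prod {ι : Type*} (J : Finset ι) (f : ι → ℤ) (hf : ∀ j ∈ J, f j ≠ 0) :
    lm (∏ j ∈ J, f j) = ∏ j ∈ J, lm (f j) := by
  classical
  induction J using Finset.induction_on with
  | empty => simp [lm]
  | insert a s ha ih =>
    rw [prod_insert ha, prod_insert ha, lm_mul (hf a (mem_insert_self a s)), ih]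
    · intro j hj
      exact hf j (mem_insert_of_mem hj)
    · rw [prod_ne_zero_iff]
      intro j hj
      exact hf j (mem_insert_of_mem hj)

end Pool.Agent.Lib.MP_648c71_nt.Refl
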