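import Pool.Agent.Lib.MP_648c71_nt.Refl.Window

/-!
The reflection trick: windows for linear polynomials, products of translates, symmetric factors.
-/

set_option autoImplicit false

namespace Pool.Agent.Lib.MP_648c71_nt.Refl

open Finset Polynomial

/-- both signs of `λ(bn+c)` in every class and every interval `[Y, CY]`. -/
theorem win_linear {b c : ℤ} (hb : b ≠ 0) : Win fun n => lm (b * n + c) := by
  intro T hT r s hs
  -- a prime `ℓ = 1` modulo `|b| T`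
  set m := (b.natAbs * T.toNat) with hm
  have hT' : (T.toNat : ℤ) = T := Int.toNat_of_nonneg hT.le
  have hm0 : m ≠ 0 := by
    have h1 : b.natAbs ≠ 0 := Int.natAbs_ne_zero.2 hb
    have h2 : T.toNat ≠ 0 := by omega
    exact mul_ne_zero h1 h2
  obtain ⟨l, hl, -, hlm⟩ := Nat.exists_prime_gt_modEq_one (k := m) 2 hm0
  obtain ⟨u, hu⟩ : ∃ u : ℤ, (l : ℤ) - 1 = b * T * u := by
    have h1 : (m : ℤ) ∣ (l : ℤ) - 1 := by
      have := (Nat.modEq_iff_dvd.1 hlm.symm)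
      simpa using this
    have h2 : b * T ∣ (m : ℤ) := by
      rw [hm]
      push_cast
      rw [hT']
      exact mul_dvd_mul (by simp) (dvd_refl T)
    exact h2.trans h1
  have hl1 : (1:ℤ) < l := by exact_mod_cast hl.one_lt
  set E := |T * u * c| with hE
  have hE0 := abs_nonneg (T * u * c)
  have hE1 := le_abs_self (T * u * c)
  have hE2 := neg_abs_le (T * u * c)
  have hcn := abs_nonneg c
  refine ⟨l * (1 + T) + E, E + |c| + 1, by linarith, fun Y hY => ?_⟩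
  have hY1 : 1 ≤ Y := by linarith
  -- an element of the class in `[Y, Y+T)`
  obtain ⟨n₁, hn1, hn1', hn1r⟩ : ∃ n₁, Y ≤ n₁ ∧ n₁ < Y + T ∧ n₁ ≡ r [ZMOD T] := by
    refine ⟨Y + (r - Y) % T, ?_, ?_, ?_⟩
    · have := Int.emod_nonneg (r - Y) hT.ne'
      linarith
    · have := Int.emod_lt_of_pos (r - Y) hT
      linarith
    · have h1 : Y + (r - Y) % T ≡ Y + (r - Y) [ZMOD T] := Int.ModEq.add_left _ (Int.mod_modEq _ _)
      have h2 : Y + (r - Y) = r := by ring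
      rwa [h2] at h1
  have hne : b * n₁ + c ≠ 0 := by
    intro h0
    have h1 : |b * n₁| = |c| := by
      have : b * n₁ = -c := by linarith
      rw [this, abs_neg]
    rw [abs_mul, abs_of_pos (by linarith : (0:ℤ) < n₁)] at h1
    have h2 : 1 ≤ |b| := Int.one_le_abs hb
    have h3 : n₁ ≤ |b| * n₁ := by nlinarith
    linarith
  by_cases hv : lm (b * n₁ + c) = s
  · refine ⟨n₁, hn1, ?_, hn1r, hv⟩
    have h1 : Y + T ≤ (1 + T) * Y := by nlinarith
    have h2 : (1 + T) * Y ≤ l * (1 + T) * Y := by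
      have : 0 ≤ (1 + T) * Y := by positivity
      nlinarith
    have h3 : 0 ≤ E * Y := by positivity
    linarith
  · refine ⟨l * n₁ + T * u * c, ?_, ?_, ?_, ?_⟩
    · have h1 : n₁ + n₁ ≤ l * n₁ := by nlinarith
      linarith
    · have h1 : l * n₁ ≤ l * (Y + T) := mul_le_mul_of_nonneg_left hn1'.le (by linarith)
      have h2 : (Y + T) ≤ (1 + T) * Y := by nlinarith
      have h3 : l * (Y + T) ≤ l * ((1 + T) * Y) := mul_le_mul_of_nonneg_left h2 (by linarith)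
      have h4 : E ≤ E * Y := by nlinarith
      linarith
    · have h1 : l * n₁ + T * u * c = n₁ + T * (u * (b * n₁ + c)) := by
        have h3 : (l : ℤ) = 1 + b * T * u := by linarith
        rw [h3]
        ring
      rw [h1]
      exact (Int.modEq_iff_dvd.2 ⟨u * (b * n₁ + c), by ring⟩ : n₁ ≡ n₁ + T * (u * (b * n₁ + c)) [ZMOD T]).symm.trans hn1r
    · have h1 : b * (l * n₁ + T * u * c) + c = l * (b * n₁ + c) := by
        have h3 : (l : ℤ) - 1 = b * T * u := hu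
        linear_combination (-c) * h3
      have h4 : lm (l : ℤ) = -1 := by
        unfold lm
        rw [Int.natAbs_natCast, ArithmeticFunction.cardFactors_apply_prime hl]
        norm_num
      show lm (b * (l * n₁ + T * u * c) + c) = s
      rw [h1, lm_mul (by exact_mod_cast hl.ne_zero) hne, h4]
      rcases lm_pm (b * n₁ + c) with h5 | h5 <;> rcases hs with rfl | rfl
      · exact absurd h5 hv
      · rw [h5]; norm_num
      · rw [h5]; norm_num
      · exact absurd h5 hv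

/-- a nonzero polynomial has no zeros outside a bounded interval. -/
theorem eval_ne {p : ℤ[X]} (hp : p ≠ 0) : ∃ B : ℤ, ∀ n : ℤ, B ≤ |n| → p.eval n ≠ 0 := by
  refine ⟨∑ r ∈ p.roots.toFinset, |r| + 1, fun n hn h0 => ?_⟩
  have h1 : n ∈ p.roots.toFinset := by
    rw [Multiset.mem_toFinset, mem_roots hp]
    exact h0
  have h2 := single_le_sum (f := fun r : ℤ => |r|) (fun i _ => abs_nonneg i) h1
  linarith

/-- windows for products of translates. -/
theorem translates_window {q : ℤ → ℤ} {B : ℤ} (hq0 : ∀ n, B ≤ |n| → q n ≠ 0) (hwin : Win fun n => lm (q n)) {J : Finset ℤ}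
    (hJ : J.Nonempty) {s : ℤ} (hs : s = 1 ∨ s = -1) :
    ∃ C Y₀ : ℤ, 1 ≤ Y₀ ∧ ∀ Y, Y₀ ≤ Y → ∃ n, Y ≤ n ∧ n ≤ C * Y ∧ lm (∏ j ∈ J, q (n + j)) = s := by
  obtain ⟨C, Y₀, hY₀, h1⟩ := prod_window (fun n => lm_pm (q n)) hwin hJ hs
  obtain ⟨R, hR0, hR⟩ : ∃ R : ℤ, 0 ≤ R ∧ ∀ j ∈ J, |j| ≤ R := by
    refine ⟨∑ j ∈ J, |j|, sum_nonneg fun j _ => abs_nonneg j, fun j hj => ?_⟩
    exact single_le_sum (f := fun j => |j|) (fun i _ => abs_nonneg i) hj
  have hBn := abs_nonneg B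
  have hBl := le_abs_self B
  refine ⟨C, Y₀ + R + |B| + 1, by linarith, fun Y hY => ?_⟩
  obtain ⟨n, hn, hn', h2⟩ := h1 Y (by linarith)
  refine ⟨n, hn, hn', ?_⟩
  rw [lm_prod J _ (fun j hj => ?_), h2]
  apply hq0
  have h3 := abs_le.1 (hR j hj)
  rw [abs_of_pos (by linarith)]
  linarith

/-- **Reflection.** -/
theorem reflect_window {q p : ℤ → ℤ} {k₁ k₂ B : ℤ} (hq0 : ∀ n, B ≤ |n| → q n ≠ 0) (hp0 : ∀ n, B ≤ |n| → p n ≠ 0)
    (hq : ∀ n, q (k₁ - n) = q n ∨ q (k₁ - n) = -q n) (hp : ∀ n, p (k₂ - n) = p n ∨ p (k₂ - n) = -p n)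
    (hwin : Win fun n => lm (q n)) {J : Finset ℤ} (hJ : J ≠ J.image fun j => k₁ - k₂ - j) :
    ∃ C Y₀ : ℤ, 1 ≤ Y₀ ∧ ∀ Y, Y₀ ≤ Y → ∃ n, Y ≤ n ∧ n ≤ C * Y ∧
      lm (p n * ∏ j ∈ J, q (n + j)) = -lm (p (k₂ - n) * ∏ j ∈ J, q (k₂ - n + j)) := by
  classical
  set J' := J.image fun j => k₁ - k₂ - j with hJ'
  set D := symmDiff J J' with hD
  have hDne : D.Nonempty := by
    rw [nonempty_iff_ne_empty]
    intro h
    exact hJ (symmDiff_eq_bot.1 (show symmDiff J J' = ⊥ from h))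
  obtain ⟨R, hR⟩ : ∃ R : ℤ, 0 ≤ R ∧ ∀ j ∈ J, |j| ≤ R := by
    refine ⟨∑ j ∈ J, |j|, sum_nonneg fun j _ => abs_nonneg j, fun j hj => ?_⟩
    exact single_le_sum (f := fun j => |j|) (fun i _ => abs_nonneg i) hj
  obtain ⟨C, Y₀, hY₀, hwinD⟩ := prod_window (fun n => lm_pm (q n)) hwin hDne (Or.inr rfl : (-1:ℤ) = 1 ∨ (-1:ℤ) = -1)
  have hB := le_abs_self B
  have hBn := abs_nonneg B
  have hkn := abs_nonneg k₂
  refine ⟨C, Y₀ + |B| + R + |k₂| + 1, by linarith [hR.1], fun Y hY => ?_⟩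
  obtain ⟨n, hn, hn', h1⟩ := hwinD Y (by linarith [hR.1])
  refine ⟨n, hn, hn', ?_⟩
  have hn0 : 0 < n := by linarith [hR.1]
  have hpn : p n ≠ 0 := hp0 n (by rw [abs_of_pos hn0]; linarith [hR.1])
  have hqn : ∀ j ∈ J, q (n + j) ≠ 0 := by
    intro j hj
    apply hq0
    have h2 := abs_le.1 (hR.2 j hj)
    have h3 : 0 ≤ n + j := by linarith
    rw [abs_of_nonneg h3]
    linarith
  have hpk : p (k₂ - n) ≠ 0 := by
    rcases hp n with h | h <;> rw [h]
    · exact hpn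
    · exact neg_ne_zero.2 hpn
  have hqk : ∀ j ∈ J, q (k₂ - n + j) ≠ 0 := by
    intro j hj
    apply hq0
    have h2 := abs_le.1 (hR.2 j hj)
    have h4 := le_abs_self k₂
    have h3 : k₂ - n + j ≤ 0 := by linarith
    rw [abs_of_nonpos h3]
    linarith
  have e1 : lm (p (k₂ - n)) = lm (p n) := by
    rcases hp n with h | h <;> rw [h]
    exact lm_neg _
  have e2 : ∀ j, lm (q (k₂ - n + j)) = lm (q (n + (k₁ - k₂ - j))) := by
    intro j
    have h2 : k₂ - n + j = k₁ - (n + (k₁ - k₂ - j)) := by ring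
    rw [h2]
    rcases hq (n + (k₁ - k₂ - j)) with h | h <;> rw [h]
    exact lm_neg _
  rw [lm_mul hpn (prod_ne_zero_iff.2 hqn), lm_mul hpk (prod_ne_zero_iff.2 hqk), lm_prod J _ hqn, lm_prod J _ hqk, e1]
  have e3 : ∏ j ∈ J, lm (q (k₂ - n + j)) = ∏ j ∈ J', lm (q (n + j)) := by
    rw [hJ', prod_image (fun a _ b _ hab => by
      have : k₁ - k₂ - a = k₁ - k₂ - b := hab
      linarith)]
    exact prod_congr rfl fun j _ => e2 j
  rw [e3]
  have hu : ∀ K : Finset ℤ, (∏ j ∈ K, lm (q (n + j))) * (∏ j ∈ K, lm (q (n + j))) = 1 := by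
    intro K
    rw [← prod_mul_distrib]
    exact prod_eq_one fun j _ => lm_sq _
  have e4 : (∏ j ∈ J, lm (q (n + j))) * ∏ j ∈ J', lm (q (n + j)) = ∏ j ∈ D, lm (q (n + j)) := by
    have h2 : ∏ j ∈ J, lm (q (n + j)) = (∏ j ∈ J \ J', lm (q (n + j))) * ∏ j ∈ J ∩ J', lm (q (n + j)) := by
      rw [← prod_union (disjoint_sdiff_inter J J'), sdiff_union_inter]
    have h3 : ∏ j ∈ J', lm (q (n + j)) = (∏ j ∈ J' \ J, lm (q (n + j))) * ∏ j ∈ J ∩ J', lm (q (n + j)) := by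
      rw [inter_comm J J', ← prod_union (disjoint_sdiff_inter J' J), sdiff_union_inter]
    have h4 : ∏ j ∈ D, lm (q (n + j)) = (∏ j ∈ J \ J', lm (q (n + j))) * ∏ j ∈ J' \ J, lm (q (n + j)) := by
      rw [hD, symmDiff_def, sup_eq_union, prod_union]
      exact disjoint_sdiff_sdiff
    rw [h2, h3, h4]
    have h5 := hu (J ∩ J')
    linear_combination ((∏ j ∈ J \ J', lm (q (n + j))) * ∏ j ∈ J' \ J, lm (q (n + j))) * h5
  rw [h1] at e4
  have e5 := hu J'
  linear_combination (lm (p n) * ∏ j ∈ J', lm (q (n + j))) * e4 - (lm (p n) * ∏ j ∈ J, lm (q (n + j))) * e5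

/-- the polynomial form of `reflect_window`. -/
theorem reflect_poly {q p : ℤ[X]} {k₁ k₂ : ℤ} (hq0 : q ≠ 0) (hp0 : p ≠ 0)
    (hq : q.comp (C k₁ - X) = q ∨ q.comp (C k₁ - X) = -q) (hp : p.comp (C k₂ - X) = p ∨ p.comp (C k₂ - X) = -p)
    (hwin : Win fun n => lm (q.eval n)) {J : Finset ℤ} (hJ : J ≠ J.image fun j => k₁ - k₂ - j) :
    ∃ C Y₀ : ℤ, 1 ≤ Y₀ ∧ ∀ Y, Y₀ ≤ Y → ∃ n, Y ≤ n ∧ n ≤ C * Y ∧
      lm (p.eval n * ∏ j ∈ J, q.eval (n + j)) = -lm (p.eval (k₂ - n) * ∏ j ∈ J, q.eval (k₂ - n + j)) := by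
  obtain ⟨B₁, hB₁⟩ := eval_ne hq0
  obtain ⟨B₂, hB₂⟩ := eval_ne hp0
  have hev : ∀ (g : ℤ[X]) (k n : ℤ), (g.comp (C k - X)).eval n = g.eval (k - n) := by
    intro g k n
    simp [eval_comp]
  have hq' : ∀ n, q.eval (k₁ - n) = q.eval n ∨ q.eval (k₁ - n) = -q.eval n := by
    intro n
    rw [← hev]
    rcases hq with h | h <;> rw [h]
    · exact Or.inl rfl
    · exact Or.inr (by rw [eval_neg])
  have hp' : ∀ n, p.eval (k₂ - n) = p.eval n ∨ p.eval (k₂ - n) = -p.eval n := by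
    intro n
    rw [← hev]
    rcases hp with h | h <;> rw [h]
    · exact Or.inl rfl
    · exact Or.inr (by rw [eval_neg])
  exact reflect_window (q := fun n => q.eval n) (p := fun n => p.eval n) (B := max B₁ B₂)
    (fun n hn => hB₁ n (le_trans (le_max_left _ _) hn)) (fun n hn => hB₂ n (le_trans (le_max_right _ _) hn)) hq' hp' hwin hJ

end Pool.Agent.Lib.MP_648c71_nt.Refl
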