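import Pool.Agent.Lib.MP_648c71_nt.Refl.Core

/-!
Both signs of `λ(q(n))` in every interval `[Y, CY]` and every residue class (Pell orbits).
-/

set_option autoImplicit false

namespace Pool.Agent.Lib.MP_648c71_nt.Refl

open Finset

/-- a unit congruent to `1`. -/
theorem exists_unit {d M : ℤ} (hd : 0 < d) (hns : ¬ IsSquare d) (hM : 0 < M) :
    ∃ X Y : ℤ, X ^ 2 - d * Y ^ 2 = 1 ∧ M ∣ X - 1 ∧ M ∣ Y ∧ 0 < Y ∧ 1 < X := by
  have h1 : ¬ IsSquare (d * M ^ 2) := by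
    rintro ⟨k, hk⟩
    have h2 : M ^ 2 ∣ k ^ 2 := ⟨d, by rw [pow_two k, ← hk]; ring⟩
    obtain ⟨u, rfl⟩ := (Int.pow_dvd_pow_iff two_ne_zero).1 h2
    apply hns
    refine ⟨u, ?_⟩
    have h3 : M ^ 2 * (d - u * u) = 0 := by linear_combination hk
    rcases mul_eq_zero.1 h3 with h | h
    · exact absurd h (by positivity)
    · linarith
  obtain ⟨x, y, hxy, hy⟩ := Pell.exists_of_not_isSquare (by positivity : 0 < d * M ^ 2) h1
  have hx0 : x ≠ 0 := by
    rintro rfl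
    have : 0 ≤ d * M ^ 2 * y ^ 2 := by positivity
    linarith
  have hy2 : 0 < d * M ^ 2 * y ^ 2 := by positivity
  refine ⟨1 + 2 * (d * M ^ 2 * y ^ 2), 2 * |x| * M * |y|, ?_, ?_, ?_, ?_, by linarith⟩
  · have h2 : (2 * |x| * M * |y|) ^ 2 = 4 * x ^ 2 * M ^ 2 * y ^ 2 := by
      rw [mul_pow, mul_pow, mul_pow, sq_abs, sq_abs]
      ring
    rw [h2]
    linear_combination (-4 * d * M ^ 2 * y ^ 2) * hxy
  · exact ⟨2 * (d * M * y ^ 2), by ring⟩
  · exact ⟨2 * |x| * |y|, by ring⟩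
  · have := abs_pos.2 hx0
    have := abs_pos.2 hy
    positivity

/-- a set of integers in which every element has a larger one within a factor meets every interval `[Z, CZ]`. -/
theorem exists_in_window {S : ℤ → Prop} {w₀ C : ℤ} (h0 : S w₀) (hw : 0 < w₀)
    (hstep : ∀ w, w₀ ≤ w → S w → ∃ w', w < w' ∧ w' ≤ C * w ∧ S w') {Z : ℤ} (hZ : w₀ ≤ Z) :
    ∃ w, Z ≤ w ∧ w ≤ C * Z ∧ S w := by
  classical
  have hC : 0 ≤ C := by
    obtain ⟨w', h1, h2, -⟩ := hstep w₀ le_rfl h0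
    by_contra h
    push Not at h
    have : C * w₀ < 0 := mul_neg_of_neg_of_pos h hw
    linarith
  set F := (Finset.Icc w₀ Z).filter S with hF
  have hne : F.Nonempty := ⟨w₀, by simp [hF, hZ, h0]⟩
  have hmem := mem_filter.1 (F.max'_mem hne)
  rw [mem_Icc] at hmem
  obtain ⟨w', h1, h2, h3⟩ := hstep _ hmem.1.1 hmem.2
  refine ⟨w', ?_, h2.trans ?_, h3⟩
  · by_contra h
    push Not at h
    have h4 : w' ∈ F := by
      rw [hF, mem_filter, mem_Icc]
      exact ⟨⟨by linarith [hmem.1.1], h.le⟩, h3⟩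
    have := F.le_max' w' h4
    linarith
  · exact mul_le_mul_of_nonneg_left hmem.1.2 hC

/-- Pell orbit of a value. -/
theorem orbit_window {a b c T n₀ : ℤ} (ha : 0 < a) (hT : 0 < T) (hD : 0 < a * n₀ ^ 2 + b * n₀ + c)
    (hns : ¬ IsSquare (a * (a * n₀ ^ 2 + b * n₀ + c))) (hw : 0 < 2 * a * n₀ + b) :
    ∃ C Y₀ : ℤ, 1 ≤ Y₀ ∧ ∀ Y, Y₀ ≤ Y → ∃ n, Y ≤ n ∧ n ≤ C * Y ∧ n ≡ n₀ [ZMOD T] ∧
      lm (a * n ^ 2 + b * n + c) = lm (a * n₀ ^ 2 + b * n₀ + c) := by
  set D := a * n₀ ^ 2 + b * n₀ + c with hDd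
  set Δ := b ^ 2 - 4 * a * c with hΔ
  obtain ⟨X, Y, hXY, hX1, hY1, hY0, hX0⟩ := exists_unit (mul_pos ha hD) hns (by positivity : 0 < 2 * a * T)
  set C₀ := X + a * D * Y * (1 + |Δ|) with hC₀
  have hΔn := abs_nonneg Δ
  have hC₀0 : 0 ≤ C₀ := by positivity
  obtain ⟨y₁, hy₁⟩ := hY1
  set S : ℤ → Prop := fun w => (2 * a * T ∣ w - (2 * a * n₀ + b)) ∧ ∃ z, 0 < z ∧ w ^ 2 - 4 * a * D * z ^ 2 = Δ with hS
  have hS0 : S (2 * a * n₀ + b) := ⟨⟨0, by ring⟩, 1, one_pos, by rw [hDd, hΔ]; ring⟩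
  have hstep : ∀ w, 2 * a * n₀ + b ≤ w → S w → ∃ w', w < w' ∧ w' ≤ C₀ * w ∧ S w' := by
    rintro w hw0 ⟨h1, z, hz, hwz⟩
    have hwpos : 0 < w := by linarith
    refine ⟨w * X + 2 * a * D * z * Y, ?_, ?_, ?_, z * X + w * (a * T * y₁), ?_, ?_⟩
    · have h2 : w < w * X := by nlinarith
      have h3 : 0 < 2 * a * D * z * Y := by positivity
      linarith
    · -- `2z ≤ w (1+|Δ|)`
      have h2 : 2 * z ≤ w + |Δ| := by
        by_contra hc
        push Not at hc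
        have h3 : (w + |Δ|) ^ 2 < (2 * z) ^ 2 := by
          apply pow_lt_pow_left₀ hc (by positivity) two_ne_zero
        have h4 : (2 * z) ^ 2 ≤ 4 * a * D * z ^ 2 := by
          have : 1 ≤ a * D := by
            have := mul_pos ha hD
            omega
          have h5 : 0 ≤ z ^ 2 := by positivity
          nlinarith
        have h5 : 4 * a * D * z ^ 2 = w ^ 2 - Δ := by linarith
        have h6 := neg_abs_le Δ
        have h7 : w ^ 2 + |Δ| ≤ (w + |Δ|) ^ 2 := by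
          have : |Δ| ≤ 2 * w * |Δ| := by nlinarith
          nlinarith
        linarith
      have h3 : 2 * z ≤ w * (1 + |Δ|) := by nlinarith
      have h4 : 0 ≤ a * D * Y := by positivity
      have h5 : a * D * Y * (2 * z) ≤ a * D * Y * (w * (1 + |Δ|)) := mul_le_mul_of_nonneg_left h3 h4
      rw [hC₀]
      linarith
    · obtain ⟨u, hu⟩ := h1
      obtain ⟨v, hv⟩ := hX1
      have hXe : X = 1 + 2 * a * T * v := by linarith
      refine ⟨u + w * v + 2 * a * D * z * y₁, ?_⟩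
      rw [hXe, hy₁]
      linear_combination hu
    · have h2 : 0 < y₁ := by
        have h3 : 0 < 2 * a * T * y₁ := by rw [← hy₁]; exact hY0
        exact (mul_pos_iff_of_pos_left (by positivity : 0 < 2 * a * T)).1 h3
      have h3 : 0 < z * X := mul_pos hz (by linarith)
      have h4 : 0 < w * (a * T * y₁) := by positivity
      linarith
    · have hYe : a * T * y₁ * 2 = Y := by rw [hy₁]; ring
      have h2 : (w * X + 2 * a * D * z * Y) ^ 2 - 4 * a * D * (z * X + w * (a * T * y₁)) ^ 2 =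
          (w ^ 2 - 4 * a * D * z ^ 2) * (X ^ 2 - a * D * Y ^ 2) := by
        rw [← hYe]
        ring
      rw [h2, hwz, hXY, mul_one]
  refine ⟨C₀ + (C₀ + 1) * |b|, |2 * a * n₀ + b| + 1, by linarith [abs_nonneg (2 * a * n₀ + b)], fun Y' hY' => ?_⟩
  have hbn := abs_nonneg b
  have hbl := le_abs_self b
  have hbl' := neg_abs_le b
  have hY'1 : 1 ≤ Y' := by linarith [abs_nonneg (2 * a * n₀ + b)]
  have hZ : 2 * a * n₀ + b ≤ 2 * a * Y' + |b| := by
    have h1 := le_abs_self (2 * a * n₀ + b)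
    have h2 : Y' ≤ 2 * a * Y' := by nlinarith
    linarith
  obtain ⟨w, hw1, hw2, ⟨u, hu⟩, z, hz, hwz⟩ := exists_in_window hS0 hw hstep hZ
  have hwe : w = 2 * a * (n₀ + T * u) + b := by linarith
  refine ⟨n₀ + T * u, ?_, ?_, ?_, ?_⟩
  · have h1 : 2 * a * Y' ≤ 2 * a * (n₀ + T * u) := by
      rw [hwe] at hw1
      linarith
    exact le_of_mul_le_mul_left h1 (by positivity)
  · have h1 : 2 * a * (n₀ + T * u) ≤ 2 * a * ((C₀ + (C₀ + 1) * |b|) * Y') := by
      rw [hwe] at hw2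
      have h2 : 2 * a * (n₀ + T * u) ≤ C₀ * (2 * a * Y' + |b|) + |b| := by linarith
      have h3 : (C₀ + 1) * |b| ≤ 2 * a * ((C₀ + 1) * |b|) * Y' := by
        have h4 : 0 ≤ (C₀ + 1) * |b| := by positivity
        have h5 : 1 ≤ 2 * a * Y' := by nlinarith
        nlinarith
      linarith
    exact le_of_mul_le_mul_left h1 (by positivity)
  · exact (Int.modEq_iff_dvd.2 ⟨u, by ring⟩).symm
  · have h1 : a * (n₀ + T * u) ^ 2 + b * (n₀ + T * u) + c = D * (z * z) := by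
      have h2 : 4 * a * (a * (n₀ + T * u) ^ 2 + b * (n₀ + T * u) + c) = 4 * a * (D * (z * z)) := by
        rw [hwe] at hwz
        rw [hΔ] at hwz
        linear_combination hwz
      exact mul_left_cancel₀ (by positivity : 4 * a ≠ 0) h2
    rw [h1, lm_mul hD.ne' (mul_ne_zero hz.ne' hz.ne'), lm_mul hz.ne' hz.ne', lm_sq, mul_one]

/-- the window property. -/
def Win (h : ℤ → ℤ) : Prop := ∀ T : ℤ, 0 < T → ∀ r s : ℤ, s = 1 ∨ s = -1 → ∃ C Y₀ : ℤ, 1 ≤ Y₀ ∧ ∀ Y, Y₀ ≤ Y →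
  ∃ n, Y ≤ n ∧ n ≤ C * Y ∧ n ≡ r [ZMOD T] ∧ h n = s

/-- If the product over a nonempty set of shifts is constant on `[A, B]`, the function is periodic on a slightly shorter interval. -/
theorem periodic_window {h : ℤ → ℤ} (hpm : ∀ n, h n = 1 ∨ h n = -1) {J : Finset ℤ} (hJ : J.Nonempty) :
    ∃ K R : ℕ, ∀ κ A B : ℤ, (∀ n, A ≤ n → n ≤ B → ∏ j ∈ J, h (n + j) = κ) →
      ∃ T : ℕ, 0 < T ∧ T ≤ K ∧ ∀ n, A + K + R ≤ n → n + T ≤ B - R → h (n + T) = h n := by
  classical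
  set M := J.max' hJ with hM
  set m := J.min' hJ with hm
  have hmM : m ≤ M := J.min'_le _ (J.max'_mem hJ)
  have hsq : ∀ n, h n * h n = 1 := fun n => by rcases hpm n with e | e <;> rw [e] <;> norm_num
  set d := (M - m).toNat with hd
  have hdM : (d : ℤ) = M - m := Int.toNat_of_nonneg (by linarith)
  refine ⟨2 ^ d, m.natAbs + M.natAbs, fun κ A B hκ => ?_⟩
  have hstep : ∀ n, A ≤ n → n ≤ B → h (n + M) = κ * ∏ j ∈ J.erase M, h (n + j) := by
    intro n hn hn'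
    have h1 := hκ n hn hn'
    rw [← mul_prod_erase J (fun j => h (n + j)) (J.max'_mem hJ)] at h1
    have h2 : (∏ j ∈ J.erase M, h (n + j)) * (∏ j ∈ J.erase M, h (n + j)) = 1 := by
      rw [← prod_mul_distrib]
      exact prod_eq_one fun j _ => hsq _
    rw [← h1]
    change h (n + M) = h (n + M) * (∏ j ∈ J.erase M, h (n + j)) * _
    rw [mul_assoc, h2, mul_one]
  obtain ⟨i₁, i₂, hne, heq⟩ := Fintype.exists_ne_map_eq_of_card_lt
    (fun i : Fin (2 ^ d + 1) => (fun l : Fin d => decide (h (A + (i : ℕ) + m + (l : ℕ)) = 1))) (by simp)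
  wlog hlt : i₁ < i₂ generalizing i₁ i₂
  · exact this i₂ i₁ hne.symm heq.symm (lt_of_le_of_ne (not_lt.1 hlt) hne.symm)
  have hlt' : (i₁ : ℕ) < (i₂ : ℕ) := hlt
  have hi2 : (i₂ : ℕ) ≤ 2 ^ d := Nat.lt_succ_iff.1 i₂.2
  have hval : ∀ l : ℕ, l < d → h (A + (i₁ : ℕ) + m + l) = h (A + (i₂ : ℕ) + m + l) := by
    intro l hl
    have h1 := congrFun heq ⟨l, hl⟩
    simp only [decide_eq_decide] at h1
    rcases hpm (A + (i₁ : ℕ) + m + l) with e | e <;> rcases hpm (A + (i₂ : ℕ) + m + l) with e' | e'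
    · rw [e, e']
    · rw [e, e'] at h1
      norm_num at h1
    · rw [e, e'] at h1
      norm_num at h1
    · rw [e, e']
  have hall : ∀ l : ℕ, A + (i₂ : ℕ) + (l - d) ≤ B → h (A + (i₁ : ℕ) + m + l) = h (A + (i₂ : ℕ) + m + l) := by
    intro l
    induction l using Nat.strong_induction_on with
    | _ l ih =>
      intro hlB
      rcases lt_or_ge l d with hl | hl
      · exact hval l hl
      · have hl' : (d : ℤ) ≤ l := by exact_mod_cast hl
        have hi12 : ((i₁ : ℕ) : ℤ) < ((i₂ : ℕ) : ℤ) := by exact_mod_cast hlt'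
        have hi10 : (0:ℤ) ≤ ((i₁ : ℕ) : ℤ) := by positivity
        have e1 : A + (i₁ : ℕ) + m + l = (A + (i₁ : ℕ) + (l - d)) + M := by rw [hdM]; ring
        have e2 : A + (i₂ : ℕ) + m + l = (A + (i₂ : ℕ) + (l - d)) + M := by rw [hdM]; ring
        rw [e1, e2, hstep _ (by linarith) (by linarith), hstep _ (by linarith) hlB]
        congr 1
        apply prod_congr rfl
        intro j hj
        have hjJ := mem_of_mem_erase hj
        have hj1 : m ≤ j := J.min'_le _ hjJ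
        have hj2 : j < M := lt_of_le_of_ne (J.le_max' _ hjJ) (ne_of_mem_erase hj)
        obtain ⟨l', hl'e⟩ : ∃ l' : ℕ, (l' : ℤ) = l - d + (j - m) :=
          ⟨(l - d + (j - m) : ℤ).toNat, Int.toNat_of_nonneg (by linarith)⟩
        have hl'l : l' < l := by
          have : (l' : ℤ) < l := by rw [hl'e, hdM]; linarith
          exact_mod_cast this
        have h3 := ih l' hl'l (by
          have : (l' : ℤ) < l := by exact_mod_cast hl'l
          linarith)
        rw [hl'e] at h3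
        have e3 : A + (i₁ : ℕ) + (l - d) + j = A + (i₁ : ℕ) + m + (l - d + (j - m)) := by ring
        have e4 : A + (i₂ : ℕ) + (l - d) + j = A + (i₂ : ℕ) + m + (l - d + (j - m)) := by ring
        rw [e3, e4, h3]
  refine ⟨i₂ - i₁, Nat.sub_pos_of_lt hlt', (Nat.sub_le _ _).trans hi2, fun n hn hn' => ?_⟩
  have hi12 : ((i₁ : ℕ) : ℤ) < ((i₂ : ℕ) : ℤ) := by exact_mod_cast hlt'
  have hi1K : ((i₁ : ℕ) : ℤ) ≤ (2 ^ d : ℕ) := by exact_mod_cast (hlt'.le.trans hi2)
  have hcast : (((i₂ : ℕ) - (i₁ : ℕ) : ℕ) : ℤ) = (i₂ : ℕ) - (i₁ : ℕ) := Nat.cast_sub hlt'.le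
  rw [hcast] at hn' ⊢
  push_cast at hn hn' hi1K
  have hm1 := le_abs_self m
  have hM1 := neg_abs_le M
  have hm0 := abs_nonneg m
  have hM0 := abs_nonneg M
  obtain ⟨l, hl⟩ : ∃ l : ℕ, (l : ℤ) = n - (A + (i₁ : ℕ) + m) :=
    ⟨(n - (A + (i₁ : ℕ) + m)).toNat, Int.toNat_of_nonneg (by linarith)⟩
  have h1 := hall l (by rw [hl, hdM]; linarith)
  rw [hl] at h1
  have e1 : A + (i₁ : ℕ) + m + (n - (A + (i₁ : ℕ) + m)) = n := by ring
  have e2 : A + (i₂ : ℕ) + m + (n - (A + (i₁ : ℕ) + m)) = n + ((i₂ : ℕ) - (i₁ : ℕ)) := by ring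
  rw [e1, e2] at h1
  exact h1.symm

/-- both values of the product over a nonempty set of shifts occur in every interval `[Y, CY]`. -/
theorem prod_window {h : ℤ → ℤ} (hpm : ∀ n, h n = 1 ∨ h n = -1) (hwin : Win h) {J : Finset ℤ} (hJ : J.Nonempty)
    {s : ℤ} (hs : s = 1 ∨ s = -1) :
    ∃ C Y₀ : ℤ, 1 ≤ Y₀ ∧ ∀ Y, Y₀ ≤ Y → ∃ n, Y ≤ n ∧ n ≤ C * Y ∧ ∏ j ∈ J, h (n + j) = s := by
  obtain ⟨K, R, hKR⟩ := periodic_window hpm hJ
  obtain ⟨C₁, Y₁, hY₁, h1⟩ := hwin (K.factorial : ℕ) (by exact_mod_cast K.factorial_pos) 0 1 (Or.inl rfl)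
  obtain ⟨C₂, Y₂, hY₂, h2⟩ := hwin (K.factorial : ℕ) (by exact_mod_cast K.factorial_pos) 0 (-1) (Or.inr rfl)
  have hP : ∀ n, ∏ j ∈ J, h (n + j) = 1 ∨ ∏ j ∈ J, h (n + j) = -1 := by
    intro n
    have : ∀ K : Finset ℤ, ∏ j ∈ K, h (n + j) = 1 ∨ ∏ j ∈ K, h (n + j) = -1 := by
      classical
      intro K
      induction K using Finset.induction_on with
      | empty => simp
      | insert a t ha ih =>
        rw [prod_insert ha]
        rcases hpm (n + a) with e | e <;> rcases ih with e' | e' <;> rw [e, e'] <;> norm_num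
    exact this J
  have hK0 : (0:ℤ) ≤ K := by positivity
  have hR0 : (0:ℤ) ≤ R := by positivity
  have hC1 := abs_nonneg C₁
  have hC2 := abs_nonneg C₂
  have hC1' := le_abs_self C₁
  have hC2' := le_abs_self C₂
  refine ⟨(|C₁| + |C₂|) * (1 + K + R) + R, Y₁ + Y₂, by linarith, fun Y hY => ?_⟩
  by_contra hcon
  push Not at hcon
  obtain ⟨T, hT, hTK, hper⟩ := hKR (-s) Y (((|C₁| + |C₂|) * (1 + K + R) + R) * Y) (fun n hn hn' => by
    have h3 := hcon n hn hn'
    rcases hs with rfl | rfl <;> rcases hP n with e | e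
    · exact absurd e h3
    · exact e
    · rw [e]; norm_num
    · exact absurd e h3)
  obtain ⟨n₁, hn1, hn1', hn1T, hv1⟩ := h1 (Y + K + R) (by linarith)
  obtain ⟨n₂, hn2, hn2', hn2T, hv2⟩ := h2 (Y + K + R) (by linarith)
  have hbound : ∀ C : ℤ, |C| ≤ |C₁| + |C₂| → C * (Y + K + R) ≤ ((|C₁| + |C₂|) * (1 + K + R) + R) * Y - R := by
    intro C hC
    have h3 : C * (Y + K + R) ≤ (|C₁| + |C₂|) * (Y + K + R) := by
      apply mul_le_mul_of_nonneg_right ((le_abs_self C).trans hC)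
      linarith
    have h4 : (Y + K + R) ≤ (1 + K + R) * Y := by nlinarith
    have h5 : (|C₁| + |C₂|) * (Y + K + R) ≤ (|C₁| + |C₂|) * ((1 + K + R) * Y) :=
      mul_le_mul_of_nonneg_left h4 (by positivity)
    nlinarith
  -- iterate the period
  have hit : ∀ i : ℕ, ∀ n, Y + K + R ≤ n → n + T * i ≤ ((|C₁| + |C₂|) * (1 + K + R) + R) * Y - R → h (n + T * i) = h n := by
    intro i
    induction i with
    | zero => intro n _ _; simp
    | succ i ih =>
      intro n hn hn'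
      have hT0 : (0:ℤ) ≤ T := by positivity
      have hTi : (0:ℤ) ≤ T * i := by positivity
      push_cast at hn' ⊢
      have h3 := hper (n + T * i) (by linarith) (by linarith)
      rw [ih n hn (by linarith)] at h3
      rw [← h3]
      congr 1
      ring
  have hTf : (T : ℤ) ∣ (K.factorial : ℕ) := by exact_mod_cast Nat.dvd_factorial hT hTK
  have hd : (T : ℤ) ∣ n₂ - n₁ := by
    have h3 : ((K.factorial : ℕ) : ℤ) ∣ n₂ - n₁ := (Int.modEq_iff_dvd.1 (hn1T.trans hn2T.symm))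
    exact hTf.trans h3
  have hb1 := hbound C₁ (by linarith)
  have hb2 := hbound C₂ (by linarith)
  rcases le_total n₁ n₂ with h | h
  · obtain ⟨u, hu⟩ := hd
    have hu0 : 0 ≤ u := by
      by_contra hneg
      push Not at hneg
      have : (T : ℤ) * u < 0 := mul_neg_of_pos_of_neg (by exact_mod_cast hT) hneg
      linarith
    obtain ⟨i, rfl⟩ := Int.eq_ofNat_of_zero_le hu0
    have h3 := hit i n₁ hn1 (by linarith)
    have h4 : n₁ + T * (i : ℤ) = n₂ := by linarith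
    rw [h4, hv1, hv2] at h3
    norm_num at h3
  · obtain ⟨u, hu⟩ := (dvd_sub_comm).1 hd
    have hu0 : 0 ≤ u := by
      by_contra hneg
      push Not at hneg
      have : (T : ℤ) * u < 0 := mul_neg_of_pos_of_neg (by exact_mod_cast hT) hneg
      linarith
    obtain ⟨i, rfl⟩ := Int.eq_ofNat_of_zero_le hu0
    have h3 := hit i n₂ hn2 (by linarith)
    have h4 : n₂ + T * (i : ℤ) = n₁ := by linarith
    rw [h4, hv1, hv2] at h3
    norm_num at h3

end Pool.Agent.Lib.MP_648c71_nt.Refl
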